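import Pool.Agent.Q281.MF.Even

set_option autoImplicit false

/-!
# MP_14cec7_gt: a maximal 1-system on a closed surface that does not fill (answer to Q1: NO)

The definitions are in `Pool/Agent/Q281/MF/Defs.lean`. A closed orientable hyperbolic surface is the quotient
`ℍ / G` of the hyperbolic plane by a group `G` of orientation preserving isometries acting freely, properly
discontinuously and cocompactly. Essential simple closed curves up to homotopy are represented by simple closed
geodesics, and the geometric intersection number of two distinct classes is the number of intersection points of
the geodesics. On a closed surface there are no punctures, so a 1-system fills exactly when every component of the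
complement of the union of the curves is an open disc.

The surface is the quotient by a subgroup of index 8 of the group generated by the reflections in the sides of a
right-angled hyperbolic pentagon whose sides have rational equations. The geodesic `C₀` is the image of the
imaginary axis, which contains one side of the pentagon. It separates the surface, and this is proved in the form
that a simple closed geodesic that meets `C₀` in at most one point is disjoint from `C₀`.
-/

open UpperHalfPlane Matrix Q281.MF
open scoped MatrixGroups

namespace Pool.Agent.Results.MP_14cec7_gt.ClosedSurface

/-- **Main theorem.** There are a closed orientable hyperbolic surface `ℍ / G` and a 1-system `Γ` on it that is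
maximal with respect to inclusion, contains a curve `C₀` disjoint from all its other curves, and does not fill
the surface: some component of the complement of the union of the curves is not an open topological disc. -/
theorem result : ∃ G : Subgroup PGL(2, ℝ), IsSurfaceGroup G ∧ ∃ Γ : Set (Set (Surface G)),
    IsMaximalOneSystem G Γ ∧ (∃ C₀ ∈ Γ, ∀ C ∈ Γ, C ≠ C₀ → Disjoint C C₀) ∧ ¬ Fills G Γ :=
  Q281.MF.main

end Pool.Agent.Results.MP_14cec7_gt.ClosedSurface
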